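import Pool.Agent.K3h74.SZ.Stm2
import Pool.Agent.K3h4.SZ.Torh

/-!
# Pull back by the Legendre duplication map, parameter `t = s²` (brick TORH2, helper42)

Adaptation of the file `Torh.lean` of helper4.
-/

set_option autoImplicit false

open Polynomial Finset Pool.Agent.K3h74.SZ Pool.Agent.K3h4.SZ

namespace Pool.Agent.K3h42.SZ

theorem map_homP2 (s : ℂ) (d : ℕ) (R : ℤ[X][X]) :
    (homP2 d R).map (sp s) = hp (s ^ 2) d (R.map (sp s)) := by
  have h1 : numP2.map (sp s) = nt (s ^ 2) := by simp [numP2, nt, sp_X]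
  have h2 : denP2.map (sp s) = dt (s ^ 2) := by simp [denP2, dt, sp_X]
  rw [homP2, hp, Polynomial.map_sum]
  refine sum_congr rfl fun j _ => ?_
  rw [Polynomial.map_mul, Polynomial.map_mul, Polynomial.map_pow, Polynomial.map_pow, map_C,
    coeff_map, h1, h2]

/-! ### degree and constant coefficient -/

theorem num2_monic : numP2.Monic := (monic_X_pow_sub_C (X ^ 2 : ℤ[X]) two_ne_zero).pow 2

theorem num2_deg : numP2.natDegree = 4 := by
  rw [numP2, (monic_X_pow_sub_C (X ^ 2 : ℤ[X]) two_ne_zero).natDegree_pow, natDegree_X_pow_sub_C]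

theorem den2_deg : denP2.natDegree ≤ 3 := by
  have h1 : (X * (X - 1) * (X - C (X ^ 2)) : ℤ[X][X]).natDegree ≤ 3 := by
    have ha : (X - 1 : ℤ[X][X]).natDegree ≤ 1 := by
      have := natDegree_X_sub_C (1 : ℤ[X])
      simpa using this.le
    have hb : (X - C (X ^ 2) : ℤ[X][X]).natDegree ≤ 1 := (natDegree_X_sub_C _).le
    have hc : (X : ℤ[X][X]).natDegree ≤ 1 := natDegree_X_le
    refine natDegree_mul_le.trans ?_
    have hd : (X * (X - 1) : ℤ[X][X]).natDegree ≤ 2 := by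
      refine natDegree_mul_le.trans ?_
      omega
    omega
  have h2 : denP2 = C 4 * (X * (X - 1) * (X - C (X ^ 2))) := by
    rw [denP2]
    congr 1
  rw [h2]
  exact (natDegree_C_mul_le _ _).trans h1

theorem homP2_monic_deg (d : ℕ) (R : ℤ[X][X]) (hR : R.Monic) (hd : R.natDegree = d) :
    (homP2 d R).Monic ∧ (homP2 d R).natDegree = 4 * d := by
  have hm : (numP2 ^ d).Monic := num2_monic.pow d
  have hdm : (numP2 ^ d).natDegree = 4 * d := by
    rw [num2_monic.natDegree_pow, num2_deg, mul_comm]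
  have hlt : (∑ j ∈ range d, C (R.coeff j) * (numP2 ^ j * denP2 ^ (d - j)) :
      ℤ[X][X]).degree < (numP2 ^ d).degree := by
    rw [degree_eq_natDegree hm.ne_zero, hdm]
    refine (degree_sum_le _ _).trans_lt ?_
    rw [Finset.sup_lt_iff (by exact_mod_cast WithBot.bot_lt_coe (4 * d))]
    intro j hj
    rw [mem_range] at hj
    have h3 : (C (R.coeff j) * (numP2 ^ j * denP2 ^ (d - j)) : ℤ[X][X]).natDegree ≤
        4 * j + 3 * (d - j) := by
      refine (natDegree_C_mul_le _ _).trans (natDegree_mul_le.trans ?_)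
      have h4 : (numP2 ^ j).natDegree ≤ 4 * j := by
        rw [num2_monic.natDegree_pow, num2_deg, mul_comm]
      have h5 : (denP2 ^ (d - j)).natDegree ≤ 3 * (d - j) := by
        refine natDegree_pow_le.trans ?_
        rw [mul_comm 3]
        exact Nat.mul_le_mul_left _ den2_deg
      omega
    refine (degree_le_natDegree).trans_lt (Nat.cast_lt.mpr ?_)
    omega
  have he : homP2 d R = (∑ j ∈ range d, C (R.coeff j) * (numP2 ^ j * denP2 ^ (d - j))) +
      numP2 ^ d := by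
    rw [homP2, sum_range_succ]
    have : R.coeff d = 1 := by rw [← hd]; exact hR
    rw [this]
    simp
  rw [he]
  refine ⟨hm.add_of_right hlt, ?_⟩
  rw [natDegree_add_eq_right_of_degree_lt hlt, hdm]

theorem homP2_coeff_zero (d : ℕ) (R : ℤ[X][X]) (hR : R.Monic) (hd : R.natDegree = d) :
    (homP2 d R).coeff 0 = X ^ (4 * d) := by
  have h1 : R.coeff d = 1 := by rw [← hd]; exact hR
  have hn : numP2.eval 0 = (X : ℤ[X]) ^ 4 := by
    simp [numP2]
    ring
  have hD : denP2.eval 0 = (0 : ℤ[X]) := by simp [denP2]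
  rw [coeff_zero_eq_eval_zero, homP2, eval_finsetSum, sum_range_succ, sum_eq_zero, zero_add, h1,
    Nat.sub_self, pow_zero, mul_one, C_1, one_mul, eval_pow, hn, ← pow_mul]
  intro j hj
  have : d - j ≠ 0 := by have := mem_range.1 hj; omega
  rw [eval_mul, eval_mul, eval_pow, eval_pow, hD, zero_pow this, mul_zero, mul_zero]

/-! ### roots -/

theorem special2 {d : ℕ} {r : ℂ[X]} (hdeg : r.natDegree ≤ d) {t : ℂ} (ht0 : t ≠ 0) (ht1 : t ≠ 1)
    (h0 : r.eval 0 ≠ 0) (h1 : r.eval 1 ≠ 0) (h2 : r.eval t ≠ 0)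
    (x : ℂ) (hx : x ^ 2 = t ∨ x ^ 2 - 2 * x + t = 0 ∨ x ^ 2 - 2 * t * x + t = 0) :
    (hp t d r).eval x ≠ 0 := by
  have key : ∀ c : ℂ, r.eval c ≠ 0 → (nt t).eval x = c * (dt t).eval x →
      (hp t d r).eval x ≠ 0 := by
    intro c hc h
    have hD := dt_ne_of ht0 ht1 h
    rw [eval_hp, hm_of_ne _ _ hdeg _ _ hD, h, mul_div_assoc, div_self hD, mul_one]
    exact mul_ne_zero (pow_ne_zero _ hD) hc
  rcases hx with hx | hx | hx
  · refine key 0 h0 ?_
    rw [eval_nt, hx]; ring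
  · refine key 1 h1 ?_
    rw [eval_nt, eval_dt]
    linear_combination (x ^ 2 - 2 * x + t) * hx
  · refine key t h2 ?_
    rw [eval_nt, eval_dt]
    linear_combination (x ^ 2 - 2 * t * x + t) * hx

theorem at_zero_den2 {d : ℕ} {r : ℂ[X]} (hm : r.Monic) (hd : r.natDegree = d) {t : ℂ} (x : ℂ)
    (hD : (dt t).eval x = 0) (hn : (nt t).eval x ≠ 0) : (hp t d r).eval x ≠ 0 := by
  rw [eval_hp, hD, hm_zero]
  have h1 : r.coeff d = 1 := by rw [← hd]; exact hm
  rw [h1, one_mul]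
  exact pow_ne_zero _ hn

theorem simple_root2 {d : ℕ} {r : ℂ[X]} (hmon : r.Monic) (hdegeq : r.natDegree = d) {t : ℂ}
    (ht0 : t ≠ 0) (ht1 : t ≠ 1) (h0 : r.eval 0 ≠ 0) (h1 : r.eval 1 ≠ 0) (h2 : r.eval t ≠ 0)
    (hs : ∀ x, r.eval x = 0 → r.derivative.eval x ≠ 0)
    (x : ℂ) (hx : (hp t d r).eval x = 0) : (hp t d r).derivative.eval x ≠ 0 := by
  have hD : (dt t).eval x ≠ 0 := fun h => at_zero_den2 hmon hdegeq x h (nt_ne ht0 ht1 h) hx
  obtain ⟨ρ, hρ⟩ : ∃ z, z = (nt t).eval x / (dt t).eval x := ⟨_, rfl⟩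
  have hnρ : (nt t).eval x = ρ * (dt t).eval x := by rw [hρ, div_mul_cancel₀ _ hD]
  have hroot : r.eval ρ = 0 := by
    have h := hx
    rw [eval_hp, hm_of_ne _ _ hdegeq.le _ _ hD, ← hρ] at h
    exact (mul_eq_zero.1 h).resolve_left (pow_ne_zero _ hD)
  obtain ⟨S, hS⟩ := dvd_iff_isRoot.2 hroot
  have hS0 : S ≠ 0 := by
    rintro rfl
    rw [mul_zero] at hS
    exact hmon.ne_zero hS
  have hSdeg : S.natDegree + 1 = d := by
    rw [← hdegeq, hS, natDegree_mul (X_sub_C_ne_zero ρ) hS0, natDegree_X_sub_C, add_comm]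
  have hSρ : S.eval ρ ≠ 0 := by
    have h := hs ρ hroot
    rw [hS, derivative_mul, eval_add, eval_mul, eval_mul, derivative_sub, derivative_X,
      derivative_C, sub_zero, eval_one, one_mul, eval_sub, eval_X, eval_C, sub_self, zero_mul,
      add_zero] at h
    exact h
  have hfac : hp t d r = (nt t - C ρ * dt t) * hp t S.natDegree S := by
    rw [hS, ← hSdeg]
    exact hp_factor t _ S ρ le_rfl
  have hval : (hp t S.natDegree S).eval x ≠ 0 := by
    rw [eval_hp, hm_of_ne _ _ le_rfl _ _ hD, ← hρ]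
    exact mul_ne_zero (pow_ne_zero _ hD) hSρ
  have hder : (nt t - C ρ * dt t).derivative.eval x * (dt t).eval x =
      4 * ((x ^ 2 - t) * (x ^ 2 - 2 * x + t) * (x ^ 2 - 2 * t * x + t)) := by
    have h1 : (nt t - C ρ * dt t).derivative.eval x =
        4 * x * (x ^ 2 - t) - ρ * (4 * (3 * x ^ 2 - 2 * (1 + t) * x + t)) := by
      simp [nt, dt, derivative_pow]
      ring
    rw [h1, sub_mul]
    have h2 : ρ * (4 * (3 * x ^ 2 - 2 * (1 + t) * x + t)) * (dt t).eval x =
        (nt t).eval x * (4 * (3 * x ^ 2 - 2 * (1 + t) * x + t)) := by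
      rw [hnρ]; ring
    rw [h2, eval_nt, eval_dt]
    ring
  have hne : (nt t - C ρ * dt t).derivative.eval x ≠ 0 := by
    intro h
    rw [h, zero_mul] at hder
    have h3 : (x ^ 2 - t) * (x ^ 2 - 2 * x + t) * (x ^ 2 - 2 * t * x + t) = 0 := by
      rcases mul_eq_zero.1 hder.symm with h | h
      · norm_num at h
      · exact h
    refine special2 hdegeq.le ht0 ht1 h0 h1 h2 x ?_ hx
    rcases mul_eq_zero.1 h3 with h | h
    · rcases mul_eq_zero.1 h with h | h
      · exact Or.inl (by linear_combination h)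
      · exact Or.inr (Or.inl h)
    · exact Or.inr (Or.inr h)
  rw [hfac, derivative_mul, eval_add, eval_mul, eval_mul]
  have h0' : (nt t - C ρ * dt t).eval x = 0 := by
    rw [eval_sub, eval_mul, eval_C, hnρ, sub_self]
  rw [h0', zero_mul, add_zero]
  exact mul_ne_zero hne hval

theorem sq_ne_zero' {s : ℂ} (h0 : s ≠ 0) : s ^ 2 ≠ 0 := pow_ne_zero 2 h0

theorem sq_ne_one' {s : ℂ} (h1 : s ≠ 1) (h2 : s ≠ -1) : s ^ 2 ≠ 1 := by
  intro h
  have h3 : (s - 1) * (s + 1) = 0 := by linear_combination h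
  rcases mul_eq_zero.1 h3 with h | h
  · exact h1 (by linear_combination h)
  · exact h2 (by linear_combination h)

theorem t_TORH2 : S_TORH2 := by
  intro n R hR
  have h1 := homP2_monic_deg n R hR.monic hR.deg
  have hmon : ∀ s : ℂ, (R.map (sp s)).Monic := fun s => hR.monic.map _
  have hdeg : ∀ s : ℂ, (R.map (sp s)).natDegree = n := fun s => by
    rw [hR.monic.natDegree_map, hR.deg]
  refine ⟨⟨h1.1, h1.2, Or.inl (homP2_coeff_zero n R hR.monic hR.deg), ?_, ?_, ?_, ?_⟩, ?_⟩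
  · intro s h0 h1 h2 x hx
    rw [map_homP2] at hx ⊢
    exact simple_root2 (hmon s) (hdeg s) (sq_ne_zero' h0) (sq_ne_one' h1 h2)
      (hR.ne0 s h0 h1 h2) (hR.ne1 s h0 h1 h2) (hR.net s h0 h1 h2) (hR.simple s h0 h1 h2) x hx
  · intro s h0 h1 h2
    rw [map_homP2]
    have hD : (dt (s ^ 2)).eval 0 = 0 := by rw [eval_dt]; ring
    exact at_zero_den2 (hmon s) (hdeg s) 0 hD (nt_ne (sq_ne_zero' h0) (sq_ne_one' h1 h2) hD)
  · intro s h0 h1 h2
    rw [map_homP2]
    have hD : (dt (s ^ 2)).eval 1 = 0 := by rw [eval_dt]; ring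
    exact at_zero_den2 (hmon s) (hdeg s) 1 hD (nt_ne (sq_ne_zero' h0) (sq_ne_one' h1 h2) hD)
  · intro s h0 h1 h2
    rw [map_homP2]
    have hD : (dt (s ^ 2)).eval (s ^ 2) = 0 := by rw [eval_dt]; ring
    exact at_zero_den2 (hmon s) (hdeg s) _ hD (nt_ne (sq_ne_zero' h0) (sq_ne_one' h1 h2) hD)
  · intro s h0 h1 h2 x hx
    rw [map_homP2]
    refine special2 (hdeg s).le (sq_ne_zero' h0) (sq_ne_one' h1 h2)
      (hR.ne0 s h0 h1 h2) (hR.ne1 s h0 h1 h2) (hR.net s h0 h1 h2) x ?_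
    rcases hx with hx | hx
    · left
      rw [hx]
    · right; left
      exact hx

end Pool.Agent.K3h42.SZ
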